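import Pool.Agent.TH732.FR.Fi
set_option autoImplicit false
open Ordinal Cardinal Set Order

/-! The labels and the final assembly. -/

namespace TH732.FR
open W590F

/-- the least order type of an order embedding target of `C α`. -/
noncomputable def oo (C : Ordinal.{0} → Set Ordinal.{0}) (α : Ordinal.{0}) : Ordinal.{0} :=
  sInf {θ | Nonempty (C α ↪o Iio θ)}

theorem oo_le {C : Ordinal.{0} → Set Ordinal.{0}} {α θ : Ordinal.{0}}
    (h : Nonempty (C α ↪o Iio θ)) : oo C α ≤ θ := csInf_le' h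

theorem oo_mem {C : Ordinal.{0} → Set Ordinal.{0}} {α θ : Ordinal.{0}}
    (h : Nonempty (C α ↪o Iio θ)) : Nonempty (C α ↪o Iio (oo C α)) :=
  csInf_mem (s := {θ | Nonempty (C α ↪o Iio θ)}) ⟨θ, h⟩

/-- proper initial segments have smaller order type. -/
theorem oo_lt {C : Ordinal.{0} → Set Ordinal.{0}} {α α' c θ : Ordinal.{0}}
    (h : Nonempty (C α' ↪o Iio θ)) (hc : c ∈ C α') (hαc : α ≤ c) (hsub : C α ⊆ C α')
    (hlt : ∀ x ∈ C α, x < α) : oo C α < oo C α' := by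
  obtain ⟨e⟩ := oo_mem h
  refine lt_of_le_of_lt (oo_le (θ := (e ⟨c, hc⟩ : Ordinal.{0})) ?_) (e ⟨c, hc⟩).2
  refine ⟨OrderEmbedding.ofStrictMono (fun x => ⟨(e ⟨x.1, hsub x.2⟩ : Ordinal.{0}), ?_⟩) ?_⟩
  · have : (⟨x.1, hsub x.2⟩ : C α') < ⟨c, hc⟩ := (hlt x.1 x.2).trans_le hαc
    exact e.strictMono this
  · intro x y hxy
    have : (⟨x.1, hsub x.2⟩ : C α') < ⟨y.1, hsub y.2⟩ := hxy
    exact e.strictMono this

variable {δ κ : Cardinal.{0}} {U : Ultrafilter Ordinal.{0}}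
    {C : Ordinal.{0} → Set Ordinal.{0}} {v : Ordinal.{0} → Cardinal.{0}}
    {ρ : (Ordinal.{0} → Ordinal.{0}) → Ordinal.{0}} {K : Ordinal.{0}}

/-- at most one limit point of `C β` has a given value of `oo`. -/
theorem lp_unique (hC : Sq C K) (hemb : ∀ α < K, IsSuccLimit α → ∃ θ : Ordinal.{0},
      Nonempty (C α ↪o Iio θ)) {β α α' : Ordinal.{0}} (hβ : β < K) (hl : IsSuccLimit β)
    (h : Lp C β α) (h' : Lp C β α') (ho : oo C α = oo C α') : α = α' := by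
  have hle : ∀ a, Lp C β a → a ≤ β := by
    intro a ha
    by_contra hc
    push Not at hc
    obtain ⟨ζ, h1, h2, _⟩ := ha.2 β hc
    exact absurd ((hC β hβ hl).1 h1) (not_lt.mpr h2.le)
  have hCa : ∀ a, Lp C β a → C a = C β ∩ Iio a := by
    intro a ha
    rcases (hle a ha).lt_or_eq with h1 | h1
    · exact (hC β hβ hl).2.2.2 a h1 ha.isSuccLimit ha.2
    · rw [h1]
      exact (Set.inter_eq_left.mpr (hC β hβ hl).1).symm
  have key : ∀ a b, Lp C β a → Lp C β b → a < b → oo C a < oo C b := by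
    intro a b ha hb hab
    have hbK : b < K := (hle b hb).trans_lt hβ
    obtain ⟨θ, hθ⟩ := hemb b hbK hb.isSuccLimit
    obtain ⟨ζ, h1, h2, h3⟩ := hb.2 a hab
    refine oo_lt hθ (c := ζ) (by rw [hCa b hb]; exact ⟨h1, h3⟩) h2.le ?_ ?_
    · rw [hCa a ha, hCa b hb]
      exact Set.inter_subset_inter_right _ (Iio_subset_Iio hab.le)
    · intro x hx
      rw [hCa a ha] at hx
      exact hx.2
  rcases lt_trichotomy α α' with h1 | h1 | h1
  · exact absurd ho (key _ _ h h' h1).ne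
  · exact h1
  · exact absurd ho (key _ _ h' h h1).ne'

theorem Ctx.main (hX : Ctx δ U C v ρ (succ κ).ord) (hδ0 : ℵ₀ < δ) (hκ : δ < κ)
    (hcomp : ∀ (ι : Type) (s : ι → Set Ordinal.{0}), Cardinal.mk ι < δ → (∀ i, s i ∈ U) →
      (⋂ i, s i) ∈ U)
    (hv : ∀ i, succ (2 ^ δ) ≤ v i) (h2κ : succ (2 ^ δ) ≤ κ)
    (hemb : ∀ α < (succ κ).ord, IsSuccLimit α → Nonempty (C α ↪o Iio κ.ord)) : False := by
  classical
  set K := (succ κ).ord with hK
  have hκ0 : ℵ₀ ≤ κ := (hδ0.trans hκ).le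
  have hδ2 : δ ≤ 2 ^ δ := (Cardinal.cantor δ).le
  have hlim : IsSuccLimit K := Cardinal.isSuccLimit_ord (hκ0.trans (Order.le_succ κ))
  have hδlim : IsSuccLimit δ.ord := Cardinal.isSuccLimit_ord hδ0.le
  have hδK : δ.ord < K := Cardinal.ord_lt_ord.mpr (hκ.trans (lt_succ κ))
  have hω : ∀ s : ℕ → Ordinal.{0} → Prop, (∀ n, ∀ᶠ i in (U : Filter Ordinal.{0}), s n i) →
      ∀ᶠ i in (U : Filter Ordinal.{0}), ∀ n, s n i := by
    intro s hs
    have h1 := hcomp ℕ (fun n => {i | s n i}) (by rw [Cardinal.mk_nat]; exact hδ0) (fun n => hs n)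
    refine Filter.mem_of_superset h1 ?_
    intro i hi n
    exact mem_iInter.mp hi n
  have hiδ : ∀ᶠ i in (U : Filter Ordinal.{0}), i < δ.ord := hX.hδU
  -- first refinement
  have hS0 : Stat K (fun α => (Cw α ∧ IsSuccLimit α) ∧ α < K) :=
    (stat_omega hκ0).mono (fun α h1 h2 => ⟨h2, h1⟩)
  obtain ⟨η, hη, hS1⟩ := hS0.part hκ0 (succ κ.ord) (hlim.succ_lt
    (Cardinal.ord_lt_ord.mpr (lt_succ κ))) (oo C) (by
      rintro α ⟨⟨_, h1⟩, h2⟩
      exact Order.lt_succ_of_le (oo_le (hemb α h2 h1)))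
  -- second refinement
  have hφ : ∀ α : Ordinal.{0}, ∃ i : Ordinal.{0}, i < δ.ord ∧ (((Cw α ∧ IsSuccLimit α) ∧ α < K) →
      ∀ y < α, ∃ z, DD C v i α z ∧ y < z) := by
    intro α
    by_cases hα : (Cw α ∧ IsSuccLimit α) ∧ α < K
    · obtain ⟨⟨⟨s, hs1, hs2⟩, h1⟩, h2⟩ := hα
      have h3 : ∀ᶠ i in (U : Filter Ordinal.{0}), ∀ n, DD C v i α (s n) :=
        hω _ (fun n => hX.ev h2 (hs1 n))
      obtain ⟨i, h4, h5⟩ := (h3.and hiδ).exists
      refine ⟨i, h5, fun _ y hy => ?_⟩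
      obtain ⟨n, hn⟩ := hs2 y hy
      exact ⟨s n, h4 n, hn⟩
    · exact ⟨0, hδlim.bot_lt, fun h => absurd h hα⟩
  choose φ hφ1 hφ2 using hφ
  obtain ⟨i₀, hi₀, hS2⟩ := hS1.part hκ0 δ.ord hδK φ (fun α _ => hφ1 α)
  set S : Ordinal.{0} → Prop := fun α =>
    (((Cw α ∧ IsSuccLimit α) ∧ α < K) ∧ oo C α = η) ∧ φ α = i₀ with hS
  -- splitting
  set lam : Cardinal.{0} := succ (2 ^ δ) with hlam
  obtain ⟨R, hR1, hR2⟩ := ulam hκ0 (S := S) hS2 (fun α h => h.1.1.1.2.bot_lt) lam.ord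
    (by rw [Cardinal.card_ord]; exact h2κ)
  obtain ⟨TR, hTR⟩ := hX.thrR lam.ord (fun i => by rw [Cardinal.card_ord]; exact hv i)
    (fun _ y ν => S y ∧ R ν y)
  have hTR' : ∀ β < K, ∀ᶠ i in (U : Filter Ordinal.{0}), ∀ x, DD C v i β x → ∀ ν < lam.ord,
      (TR i (gg C v x i) (gg C v x i) ν ↔ S x ∧ R ν x) := by
    intro β hβ
    filter_upwards [hTR β hβ] with i hi
    intro x hx ν hν
    exact hi x x hx hx le_rfl ν hν
  have hstat : ∀ ν < lam.ord, ∀ᶠ i in (U : Filter Ordinal.{0}),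
      StatI (v i) (fun a => TR i a a ν) := by
    intro ν hν
    refine hX.stat_transfer hω (hR1 ν hν) (fun α h => h.1.1.1.1.1) _ ?_
    intro β hβ
    filter_upwards [hTR' β hβ] with i hi
    intro x hx hSx
    exact (hi x hx ν hν).mpr hSx
  -- pigeonhole
  obtain ⟨t, e, he1, he2⟩ := pig (τ := Set (Iio δ.ord)) lam.ord
    (fun ν => {i : Iio δ.ord | StatI (v i.1) (fun a => TR i.1 a a ν)})
    (by rw [Cardinal.card_ord]; exact (hδ0.le.trans hδ2).trans (Order.le_succ _))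
    (by
      rw [Cardinal.mk_set, Cardinal.mk_Iio_ordinal, Cardinal.card_ord, Cardinal.card_ord,
        ← Cardinal.lift_two_power, Cardinal.lift_lt]
      exact lt_succ _)
    δ.ord
    (by
      rw [Cardinal.mk_set, Cardinal.mk_Iio_ordinal, Cardinal.card_ord]
      exact (Cardinal.cantor _).le)
  have hstat' : ∀ᶠ i in (U : Filter Ordinal.{0}), StatI (v i) (fun a => TR i a a (e i)) := by
    have h0 := he1 0 hδlim.bot_lt
    filter_upwards [hstat (e 0) h0.1, hiδ] with i h1 h2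
    have h3 : (⟨i, h2⟩ : Iio δ.ord) ∈ t := by
      rw [← h0.2]
      exact h1
    rw [← (he1 i h2).2] at h3
    exact h3
  -- the labels
  set Lab : Ordinal.{0} → Ordinal.{0} → Prop := fun α ν => ν < δ.ord ∧ S α ∧ R (e ν) α with hLab
  refine hX.final hδ0.le (fun i => (hδ2.trans (Order.le_succ _)).trans (hv i)) Lab
    (fun α ν h => h.2.1.1.1.1.2) ?_ (fun i a => TR i a a (e i)) hstat' ?_
  · intro β hβ hl c hc
    by_cases hex : ∃ α μ, Lab α μ ∧ Lp C β α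
    · obtain ⟨α, μ, h1, h2⟩ := hex
      refine ⟨succ μ, hδlim.succ_lt h1.1, ?_⟩
      intro α' μ' h1' h2' _
      have hαα : α = α' := lp_unique hX.hC (fun a ha1 ha2 => ⟨_, hemb a ha1 ha2⟩) hβ hl h2 h2'
        (h1.2.1.1.2.trans h1'.2.1.1.2.symm)
      subst hαα
      have h3 := hR2 α h1.2.1.1.1.2 _ (he1 μ h1.1).1 _ (he1 μ' h1'.1).1 h1.2.2 h1'.2.2
      have h4 := he2 μ h1.1 μ' h1'.1 h3
      rw [← h4]
      exact lt_succ μ
    · refine ⟨0, hδlim.bot_lt, ?_⟩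
      intro α μ h1 h2 _
      exact absurd ⟨α, μ, h1, h2⟩ hex
  · intro β hβ
    filter_upwards [hTR' β hβ, hiδ, hX.hge i₀ hi₀] with i h1 h2 h3
    intro x hx hT
    obtain ⟨h4, h5⟩ := (h1 x hx (e i) (he1 i h2).1).mp hT
    refine ⟨⟨h2, h4, h5⟩, ?_⟩
    intro y hy
    obtain ⟨z, hz1, hz2⟩ := hφ2 x h4.1.1 y hy
    rw [h4.2] at hz1
    exact ⟨z, inD_mono (Cardinal.lift_le.mpr (hX.hvmono h3)) hz1, hz2⟩

end TH732.FR
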