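import Pool.Agent.W590.FrE
set_option autoImplicit false
open Ordinal Cardinal Set Order

/-! Coherent families of sets defined from a square sequence with an abstract side condition `P`. -/

namespace TH732.FR
open W590F (Lp Sq)

inductive InP (C : Ordinal.{0} → Set Ordinal.{0}) (P : Ordinal.{0} → Ordinal.{0} → Prop) :
    Ordinal.{0} → Ordinal.{0} → Prop
  | self (α β x : Ordinal.{0}) : β = succ α → x = α → InP C P β x
  | lift (α β x : Ordinal.{0}) : β = succ α → InP C P α x → InP C P β x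
  | lim (β c x : Ordinal.{0}) : IsSuccLimit β → c ∈ C β → P β c →
      (∀ c' c'', c' ∈ C β → c'' ∈ C β → c' < c'' → c'' ≤ c →
        (∀ ξ, c' < ξ → ξ ≤ c → ¬ Lp C β ξ) → InP C P c'' c') →
      InP C P c x → InP C P β x

/-- good points of `C β`. -/
def GoodP (C : Ordinal.{0} → Set Ordinal.{0}) (P : Ordinal.{0} → Ordinal.{0} → Prop)
    (β c : Ordinal.{0}) : Prop :=
  c ∈ C β ∧ P β c ∧
    (∀ c' c'', c' ∈ C β → c'' ∈ C β → c' < c'' → c'' ≤ c →
        (∀ ξ, c' < ξ → ξ ≤ c → ¬ Lp C β ξ) → InP C P c'' c')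

/-- The side condition is coherent. -/
def Pcoh (C : Ordinal.{0} → Set Ordinal.{0}) (K : Ordinal.{0})
    (P : Ordinal.{0} → Ordinal.{0} → Prop) : Prop :=
  ∀ β < K, IsSuccLimit β → ∀ η < β, Lp C β η → ∀ c < η, P β c → P η c

variable {C : Ordinal.{0} → Set Ordinal.{0}} {P : Ordinal.{0} → Ordinal.{0} → Prop}
  {K : Ordinal.{0}}

theorem inP_lim_iff {β x : Ordinal.{0}} (hβ : IsSuccLimit β) :
    InP C P β x ↔ ∃ c, GoodP C P β c ∧ InP C P c x := by
  constructor
  · intro h
    cases h with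
    | self α _ _ h1 _ => exact absurd hβ (by rw [h1]; exact not_isSuccLimit_succ α)
    | lift α _ _ h1 _ => exact absurd hβ (by rw [h1]; exact not_isSuccLimit_succ α)
    | lim _ c _ h1 h2 h3 h4 h5 => exact ⟨c, ⟨h2, h3, h4⟩, h5⟩
  · rintro ⟨c, ⟨h2, h3, h4⟩, h5⟩
    exact InP.lim β c x hβ h2 h3 h4 h5

theorem inP_succ_iff {α x : Ordinal.{0}} :
    InP C P (succ α) x ↔ x = α ∨ InP C P α x := by
  constructor
  · intro h
    cases h with
    | self α' _ _ h1 h2 =>
      have := succ_injective h1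
      left; rw [h2, this]
    | lift α' _ _ h1 h2 =>
      have := succ_injective h1
      right; rw [this]; exact h2
    | lim _ c _ h1 h2 h3 h4 h5 => exact absurd h1 (not_isSuccLimit_succ α)
  · rintro (h | h)
    · exact InP.self α _ x rfl h
    · exact InP.lift α _ x rfl h

theorem not_inP_zero {x : Ordinal.{0}} : ¬ InP C P 0 x := by
  intro h
  cases h with
  | self α' _ _ h1 h2 => exact (Ordinal.succ_ne_zero α') h1.symm
  | lift α' _ _ h1 h2 => exact (Ordinal.succ_ne_zero α') h1.symm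
  | lim _ c _ h1 h2 h3 h4 h5 => exact absurd h1 (by simp)

theorem lt_of_inP (hC : Sq C K) : ∀ β < K, ∀ x, InP C P β x → x < β := by
  intro β
  induction β using WellFoundedLT.induction with
  | ind β ih =>
    intro hβ x hx
    rcases Ordinal.zero_or_succ_or_isSuccLimit β with h0 | ⟨t, ht⟩ | hl
    · subst h0; exact absurd hx not_inP_zero
    · subst ht
      rcases inP_succ_iff.mp hx with h | h
      · rw [h]; exact lt_succ t
      · exact (ih t (lt_succ t) ((lt_succ t).trans hβ) x h).trans (lt_succ t)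
    · obtain ⟨c, hc, hcx⟩ := (inP_lim_iff hl).mp hx
      have hcβ : c < β := (hC β hβ hl).1 hc.1
      exact (ih c hcβ (hcβ.trans hβ) x hcx).trans hcβ

theorem inP_mono {P' : Ordinal.{0} → Ordinal.{0} → Prop} (h : ∀ β c, P β c → P' β c)
    {β x : Ordinal.{0}} (hx : InP C P β x) :
    InP C P' β x := by
  induction hx with
  | self α β x h1 h2 => exact InP.self α β x h1 h2
  | lift α β x h1 h2 ih => exact InP.lift α β x h1 ih
  | lim β c x h1 h2 h3 h4 h5 ih1 ih2 =>
    exact InP.lim β c x h1 h2 (h _ _ h3) (fun c' c'' a b d e f => ih1 c' c'' a b d e f) ih2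

theorem goodP_mono {P' : Ordinal.{0} → Ordinal.{0} → Prop} (h : ∀ β c, P β c → P' β c)
    {β c : Ordinal.{0}} (hx : GoodP C P β c) :
    GoodP C P' β c :=
  ⟨hx.1, h _ _ hx.2.1, fun c' c'' a b d e f => inP_mono h (hx.2.2 c' c'' a b d e f)⟩

theorem cohP_aux (hC : Sq C K) (hP : Pcoh C K P) : ∀ β < K,
    (∀ x, InP C P β x → ∀ y, (InP C P x y ↔ (InP C P β y ∧ y < x))) ∧
    (IsSuccLimit β → ∀ c, GoodP C P β c → ∀ y, (InP C P c y ↔ (InP C P β y ∧ y < c))) := by
  intro β
  induction β using WellFoundedLT.induction with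
  | ind β ih =>
    intro hβ
    have key : IsSuccLimit β → ∀ c c', c < c' → GoodP C P β c → GoodP C P β c' →
        ∀ y, (InP C P c y ↔ (InP C P c' y ∧ y < c)) := by
      intro hl c c' hcc hc hc' y
      obtain ⟨hC1, hC2, hC3, hC5⟩ := hC β hβ hl
      have hc'β : c' < β := hC1 hc'.1
      by_cases hex : ∃ ξ, c < ξ ∧ ξ ≤ c' ∧ Lp C β ξ
      · set S : Set Ordinal.{0} := {ξ | c < ξ ∧ ξ ≤ c' ∧ Lp C β ξ} with hS
        have hSne : S.Nonempty := hex
        have hSb : BddAbove S := ⟨c', fun ξ hξ => hξ.2.1⟩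
        set η := sSup S with hη
        have hηc' : η ≤ c' := csSup_le hSne (fun ξ hξ => hξ.2.1)
        have hcη : c < η := by
          obtain ⟨ξ, hξ⟩ := hSne
          exact hξ.1.trans_le (le_csSup hSb hξ)
        have hηLp : Lp C β η := by
          refine ⟨(bot_le.trans_lt hcη).ne', ?_⟩
          intro γ hγ
          obtain ⟨ξ, hξ, hγξ⟩ := exists_lt_of_lt_csSup hSne hγ
          obtain ⟨ζ, hζ, h1, h2⟩ := hξ.2.2.2 γ hγξ
          exact ⟨ζ, hζ, h1, h2.trans_le (le_csSup hSb hξ)⟩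
        have hηβ : η < β := hηc'.trans_lt hc'β
        have hηl := hηLp.isSuccLimit
        have hCη := hC5 η hηβ hηl hηLp.2
        have hgood : GoodP C P η c := by
          refine ⟨by rw [hCη]; exact ⟨hc.1, hcη⟩, ?_, ?_⟩
          · exact hP β hβ hl η hηβ hηLp c hcη hc.2.1
          · intro a b ha hb hab hbc hno
            rw [hCη] at ha hb
            refine hc.2.2 a b ha.1 hb.1 hab hbc ?_
            intro ξ h1 h2 h3
            refine hno ξ h1 h2 ⟨h3.1, ?_⟩
            intro γ hγ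
            obtain ⟨ζ, hζ, h4, h5⟩ := h3.2 γ hγ
            exact ⟨ζ, by rw [hCη]; exact ⟨hζ, (h5.trans_le h2).trans hcη⟩, h4, h5⟩
        have hB := (ih η hηβ (hηβ.trans hβ)).2 hηl c hgood y
        rcases hηc'.eq_or_lt with h | h
        · rw [← h]; exact hB
        · have hηC : η ∈ C β := hC3 η hηβ hηl hηLp.2
          have hin : InP C P c' η := by
            refine hc'.2.2 η c' hηC hc'.1 h le_rfl ?_
            intro ξ h1 h2 h3
            have : ξ ∈ S := ⟨hcη.trans h1, h2, h3⟩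
            exact absurd (le_csSup hSb this) (not_le.mpr h1)
          have hA := (ih c' hc'β (hc'β.trans hβ)).1 η hin y
          constructor
          · intro hy
            have := hB.mp hy
            exact ⟨(hA.mp this.1).1, this.2⟩
          · rintro ⟨h1, h2⟩
            exact hB.mpr ⟨hA.mpr ⟨h1, h2.trans hcη⟩, h2⟩
      · push Not at hex
        have hin : InP C P c' c := hc'.2.2 c c' hc.1 hc'.1 hcc le_rfl (fun ξ h1 h2 => hex ξ h1 h2)
        exact (ih c' hc'β (hc'β.trans hβ)).1 c hin y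
    have hB : IsSuccLimit β → ∀ c, GoodP C P β c → ∀ y, (InP C P c y ↔ (InP C P β y ∧ y < c)) := by
      intro hl c hc y
      have hcβ : c < β := (hC β hβ hl).1 hc.1
      constructor
      · intro hy
        exact ⟨(inP_lim_iff hl).mpr ⟨c, hc, hy⟩, lt_of_inP hC c (hcβ.trans hβ) y hy⟩
      · rintro ⟨h1, h2⟩
        obtain ⟨c', hc', hy⟩ := (inP_lim_iff hl).mp h1
        rcases lt_trichotomy c c' with h | h | h
        · exact (key hl c c' h hc hc' y).mpr ⟨hy, h2⟩
        · rw [h]; exact hy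
        · exact ((key hl c' c h hc' hc y).mp hy).1
    refine ⟨?_, hB⟩
    intro x hx y
    rcases Ordinal.zero_or_succ_or_isSuccLimit β with h0 | ⟨t, ht⟩ | hl
    · subst h0; exact absurd hx not_inP_zero
    · subst ht
      have htK : t < K := (lt_succ t).trans hβ
      rcases inP_succ_iff.mp hx with h | h
      · subst h
        constructor
        · intro hy
          exact ⟨inP_succ_iff.mpr (Or.inr hy), lt_of_inP hC _ htK y hy⟩
        · rintro ⟨h1, h2⟩
          rcases inP_succ_iff.mp h1 with h3 | h3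
          · exact absurd h3 h2.ne
          · exact h3
      · have hA := (ih t (lt_succ t) htK).1 x h y
        have hxt := lt_of_inP hC _ htK x h
        constructor
        · intro hy
          exact ⟨inP_succ_iff.mpr (Or.inr (hA.mp hy).1), (hA.mp hy).2⟩
        · rintro ⟨h1, h2⟩
          rcases inP_succ_iff.mp h1 with h3 | h3
          · exact absurd h3 (h2.trans hxt).ne
          · exact hA.mpr ⟨h3, h2⟩
    · obtain ⟨c, hc, hcx⟩ := (inP_lim_iff hl).mp hx
      have hcβ : c < β := (hC β hβ hl).1 hc.1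
      have hA := (ih c hcβ (hcβ.trans hβ)).1 x hcx y
      have hB' := hB hl c hc y
      have hxc := lt_of_inP hC c (hcβ.trans hβ) x hcx
      constructor
      · intro hy
        have := hA.mp hy
        exact ⟨(hB'.mp this.1).1, this.2⟩
      · rintro ⟨h1, h2⟩
        exact hA.mpr ⟨hB'.mpr ⟨h1, h2.trans hxc⟩, h2⟩

theorem cohP (hC : Sq C K) (hP : Pcoh C K P) {β x : Ordinal.{0}} (hβ : β < K)
    (hx : InP C P β x) (y : Ordinal.{0}) :
    InP C P x y ↔ (InP C P β y ∧ y < x) := (cohP_aux hC hP β hβ).1 x hx y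

theorem cohP' (hC : Sq C K) (hP : Pcoh C K P) {β c : Ordinal.{0}} (hβ : β < K)
    (hl : IsSuccLimit β) (hx : GoodP C P β c) (y : Ordinal.{0}) :
    InP C P c y ↔ (InP C P β y ∧ y < c) := (cohP_aux hC hP β hβ).2 hl c hx y

theorem exists_goodP (hC : Sq C K) (P : Ordinal.{0} → Ordinal.{0} → Ordinal.{0} → Prop)
    (hP : ∀ ν, Pcoh C K (P ν)) (hmono : ∀ ν ν', ν ≤ ν' → ∀ β c, P ν β c → P ν' β c)
    (I : Ordinal.{0}) {β : Ordinal.{0}} (hβ : β < K) (hl : IsSuccLimit β)
    (hsm : ∀ c ∈ C β, ∃ i < I, P i β c)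
    (hun : ∀ c < β, ∀ x < c, ∃ i < I, InP C (P i) c x) :
    ∀ c, c ∈ C β → ∃ i < I, GoodP C (P i) β c := by
  obtain ⟨hC1, hC2, hC3, hC5⟩ := hC β hβ hl
  intro c
  induction c using WellFoundedLT.induction with
  | ind c ih =>
    intro hc
    obtain ⟨i0, hi0, hi0'⟩ := hsm c hc
    by_cases hlp : Lp C β c
    · refine ⟨i0, hi0, hc, hi0', ?_⟩
      intro a b ha hb hab hbc hno
      exact absurd hlp (hno c (hab.trans_le hbc) le_rfl)
    by_cases hemp : ∃ a, a ∈ C β ∧ a < c
    · obtain ⟨a0, ha0, ha0c⟩ := hemp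
      have hc0 : c ≠ 0 := (bot_le.trans_lt ha0c).ne'
      have hex : ∃ γ < c, ∀ ζ ∈ C β, γ < ζ → ¬ ζ < c := by
        by_contra hcon
        push Not at hcon
        exact hlp ⟨hc0, hcon⟩
      obtain ⟨γ, hγc, hγ⟩ := hex
      set S : Set Ordinal.{0} := C β ∩ Iio c with hS
      have hSne : S.Nonempty := ⟨a0, ha0, ha0c⟩
      have hSle : ∀ z ∈ S, z ≤ γ := fun z hz => not_lt.mp (fun h => hγ z hz.1 h hz.2)
      have hSb : BddAbove S := ⟨γ, hSle⟩
      set s := sSup S with hs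
      have hsγ : s ≤ γ := csSup_le hSne hSle
      have hsc : s < c := hsγ.trans_lt hγc
      have hcβ : c < β := hC1 hc
      have hsS : s ∈ C β := by
        by_contra hns
        have hLp : Lp C β s := by
          refine ⟨?_, ?_⟩
          · intro h0
            have : a0 ≤ s := le_csSup hSb ⟨ha0, ha0c⟩
            have h2 : a0 = s := le_antisymm this (by rw [h0]; exact bot_le)
            exact hns (h2 ▸ ha0)
          · intro γ' hγ'
            obtain ⟨ζ, hζ, h1⟩ := exists_lt_of_lt_csSup hSne hγ'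
            refine ⟨ζ, hζ.1, h1, lt_of_le_of_ne (le_csSup hSb hζ) ?_⟩
            intro h2
            exact hns (h2 ▸ hζ.1)
        exact hns (hC3 s (hsc.trans hcβ) hLp.isSuccLimit hLp.2)
      have hmax : ∀ z ∈ C β, z < c → z ≤ s := fun z hz hzc => le_csSup hSb ⟨hz, hzc⟩
      obtain ⟨i1, hi1, hi1'⟩ := ih s hsc hsS
      obtain ⟨i2, hi2, hi2'⟩ := hun c hcβ s hsc
      refine ⟨max i0 (max i1 i2), max_lt hi0 (max_lt hi1 hi2), hc,
        hmono _ _ (le_max_left _ _) _ _ hi0', ?_⟩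
      have hg : GoodP C (P (max i0 (max i1 i2))) β s :=
        goodP_mono (hmono _ _ ((le_max_left i1 i2).trans (le_max_right _ _))) hi1'
      have hin : InP C (P (max i0 (max i1 i2))) c s :=
        inP_mono (hmono _ _ ((le_max_right i1 i2).trans (le_max_right _ _))) hi2'
      intro a b ha hb hab hbc hno
      have hac : a < c := hab.trans_le hbc
      have has : a ≤ s := hmax a ha hac
      rcases hbc.lt_or_eq with h | h
      · exact hg.2.2 a b ha hb hab (hmax b hb h) (fun ξ h1 h2 => hno ξ h1 (h2.trans hsc.le))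
      · subst h
        rcases has.lt_or_eq with h3 | h3
        · have h4 := hg.2.2 a s ha hsS h3 le_rfl (fun ξ h1 h2 => hno ξ h1 (h2.trans hsc.le))
          exact ((cohP hC (hP _) (hcβ.trans hβ) hin a).mp h4).1
        · rw [h3]; exact hin
    · refine ⟨i0, hi0, hc, hi0', ?_⟩
      intro a b ha hb hab hbc hno
      exact absurd ⟨a, ha, hab.trans_le hbc⟩ hemp

theorem exists_inP (hC : Sq C K) (P : Ordinal.{0} → Ordinal.{0} → Ordinal.{0} → Prop)
    (hP : ∀ ν, Pcoh C K (P ν)) (hmono : ∀ ν ν', ν ≤ ν' → ∀ β c, P ν β c → P ν' β c)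
    (I : Ordinal.{0}) (hI : 0 < I)
    (hsm : ∀ β < K, IsSuccLimit β → ∀ c ∈ C β, ∃ i < I, P i β c) :
    ∀ β < K, ∀ x < β, ∃ i < I, InP C (P i) β x := by
  intro β
  induction β using WellFoundedLT.induction with
  | ind β ih =>
    intro hβ x hx
    rcases Ordinal.zero_or_succ_or_isSuccLimit β with h0 | ⟨t, ht⟩ | hl
    · subst h0; exact absurd hx (not_lt_bot)
    · subst ht
      rcases (Order.lt_succ_iff.mp hx).lt_or_eq with h | h
      · obtain ⟨i, hi, h1⟩ := ih t (lt_succ t) ((lt_succ t).trans hβ) x h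
        exact ⟨i, hi, inP_succ_iff.mpr (Or.inr h1)⟩
      · exact ⟨0, hI, inP_succ_iff.mpr (Or.inl h)⟩
    · obtain ⟨hC1, hC2, hC3, hC5⟩ := hC β hβ hl
      obtain ⟨c, hc, hxc⟩ := hC2 x hx
      have hcβ : c < β := hC1 hc
      obtain ⟨i1, hi1, h1⟩ := exists_goodP hC P hP hmono I hβ hl (hsm β hβ hl)
        (fun c hc x hx => ih c hc (hc.trans hβ) x hx) c hc
      obtain ⟨i2, hi2, h2⟩ := ih c hcβ (hcβ.trans hβ) x hxc
      refine ⟨max i1 i2, max_lt hi1 hi2, (inP_lim_iff hl).mpr ⟨c, ?_, ?_⟩⟩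
      · exact goodP_mono (hmono _ _ (le_max_left _ _)) h1
      · exact inP_mono (hmono _ _ (le_max_right _ _)) h2

/-! ### The labelled condition -/

/-- the side condition given by labels -/
def PL (C : Ordinal.{0} → Set Ordinal.{0}) (Lab : Ordinal.{0} → Ordinal.{0} → Prop)
    (ν β c : Ordinal.{0}) : Prop :=
  ∀ α μ, Lab α μ → Lp C β α → c < α → μ < ν

theorem PL_coh (hC : Sq C K) (Lab : Ordinal.{0} → Ordinal.{0} → Prop) (ν : Ordinal.{0}) :
    Pcoh C K (PL C Lab ν) := by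
  intro β hβ hl η hη hLp c hc hP α μ hLab hLpα hcα
  have hCη := (hC β hβ hl).2.2.2 η hη hLp.isSuccLimit hLp.2
  refine hP α μ hLab ⟨hLpα.1, ?_⟩ hcα
  intro γ hγ
  obtain ⟨ζ, hζ, h1, h2⟩ := hLpα.2 γ hγ
  rw [hCη] at hζ
  exact ⟨ζ, hζ.1, h1, h2⟩

theorem PL_mono (Lab : Ordinal.{0} → Ordinal.{0} → Prop) :
    ∀ ν ν', ν ≤ ν' → ∀ β c, PL C Lab ν β c → PL C Lab ν' β c :=
  fun _ _ h _ _ hP α μ h1 h2 h3 => (hP α μ h1 h2 h3).trans_le h

theorem lp_self (hC : Sq C K) {β : Ordinal.{0}} (hβ : β < K) (hl : IsSuccLimit β) : Lp C β β := by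
  refine ⟨by rintro rfl; simp at hl, ?_⟩
  intro γ hγ
  obtain ⟨ζ, hζ, h1⟩ := (hC β hβ hl).2.1 γ hγ
  exact ⟨ζ, hζ, h1, (hC β hβ hl).1 hζ⟩

/-- at a point `α` of label `μ ≥ ν` all the sets are bounded. -/
theorem bounded_at_label (hC : Sq C K) (Lab : Ordinal.{0} → Ordinal.{0} → Prop)
    {α μ ν : Ordinal.{0}} (hα : IsSuccLimit α) (hLab : Lab α μ) (hν : ν ≤ μ) :
    ∀ β < K, α ≤ β → ∃ ξ₀ < α, ∀ ξ < α, InP C (PL C Lab ν) β ξ → ξ ≤ ξ₀ := by
  have hα0 : 0 < α := hα.bot_lt
  intro β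
  induction β using WellFoundedLT.induction with
  | ind β ih =>
    intro hβ hαβ
    rcases Ordinal.zero_or_succ_or_isSuccLimit β with h0 | ⟨t, ht⟩ | hl
    · subst h0
      exact absurd hα0 (not_lt.mpr hαβ)
    · subst ht
      have htK : t < K := (lt_succ t).trans hβ
      have hαt : α ≤ t := by
        rcases hαβ.lt_or_eq with h | h
        · exact Order.lt_succ_iff.mp h
        · rw [h] at hα; exact absurd hα (not_isSuccLimit_succ t)
      obtain ⟨ξ₀, h1, h2⟩ := ih t (lt_succ t) htK hαt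
      refine ⟨ξ₀, h1, ?_⟩
      intro ξ hξ hin
      rcases inP_succ_iff.mp hin with h | h
      · exact absurd (h ▸ hξ) (not_lt.mpr hαt)
      · exact h2 ξ hξ h
    · by_cases hex : ∃ c, GoodP C (PL C Lab ν) β c ∧ α ≤ c
      · obtain ⟨c, hc, hαc⟩ := hex
        have hcβ : c < β := (hC β hβ hl).1 hc.1
        obtain ⟨ξ₀, h1, h2⟩ := ih c hcβ (hcβ.trans hβ) hαc
        refine ⟨ξ₀, h1, ?_⟩
        intro ξ hξ hin
        exact h2 ξ hξ ((cohP' hC (PL_coh hC Lab ν) hβ hl hc ξ).mpr ⟨hin, hξ.trans_le hαc⟩)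
      · push Not at hex
        by_cases hLp : Lp C β α
        · refine ⟨0, hα0, ?_⟩
          intro ξ hξ hin
          obtain ⟨c, hc, _⟩ := (inP_lim_iff hl).mp hin
          exact absurd (hc.2.1 α μ hLab hLp (hex c hc)) (not_lt.mpr hν)
        · have : ∃ γ < α, ∀ ζ ∈ C β, γ < ζ → ¬ ζ < α := by
            by_contra hcon
            push Not at hcon
            exact hLp ⟨hα0.ne', hcon⟩
          obtain ⟨γ, hγ, hγ'⟩ := this
          refine ⟨γ, hγ, ?_⟩
          intro ξ hξ hin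
          obtain ⟨c, hc, hcξ⟩ := (inP_lim_iff hl).mp hin
          have hcβ : c < β := (hC β hβ hl).1 hc.1
          have h1 := lt_of_inP hC c (hcβ.trans hβ) ξ hcξ
          have h2 : c ≤ γ := not_lt.mp (fun h => hγ' c hc.1 h (hex c hc))
          exact (h1.trans_le h2).le

end TH732.FR
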