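import Pool.Agent.TH732.FR.Sx
import Pool.Agent.TH732.FR.E
set_option autoImplicit false
open Ordinal Cardinal Set Order

/-! The final contradiction from a labelled family. -/

namespace TH732.FR
open W590F

variable {δ : Cardinal.{0}} {U : Ultrafilter Ordinal.{0}}
    {C : Ordinal.{0} → Set Ordinal.{0}} {v : Ordinal.{0} → Cardinal.{0}}
    {ρ : (Ordinal.{0} → Ordinal.{0}) → Ordinal.{0}} {K : Ordinal.{0}}

theorem Ctx.final (hX : Ctx δ U C v ρ K) (hδ : ℵ₀ ≤ δ) (hmv : ∀ i, δ ≤ v i)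
    (Lab : Ordinal.{0} → Ordinal.{0} → Prop) (hLabLim : ∀ α ν, Lab α ν → IsSuccLimit α)
    (hLabB : ∀ β < K, IsSuccLimit β → ∀ c ∈ C β, ∃ ν < δ.ord, PL C Lab ν β c)
    (TR : Ordinal.{0} → Ordinal.{0} → Prop)
    (hTRstat : ∀ᶠ i in (U : Filter Ordinal.{0}), StatI (v i) (TR i))
    (hTR : ∀ β < K, ∀ᶠ i in (U : Filter Ordinal.{0}), ∀ x, DD C v i β x →
      TR i (gg C v x i) → Lab x i ∧ ∀ y < x, ∃ z, DD C v i x z ∧ y < z) : False := by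
  classical
  have hC := hX.hC
  have hEcoh := PL_coh hC Lab
  have hEmono := PL_mono (C := C) Lab
  have hδlim : IsSuccLimit δ.ord := Cardinal.isSuccLimit_ord hδ
  have hE : ∀ β < K, ∀ x < β, ∃ ν < δ.ord, InP C (PL C Lab ν) β x :=
    exists_inP hC (PL C Lab) hEcoh hEmono δ.ord hδlim.bot_lt hLabB
  obtain ⟨T, hT⟩ := hX.thrR δ.ord (fun i => by rw [Cardinal.card_ord]; exact hmv i)
    (fun x y ν => InP C (PL C Lab ν) y x)
  have hiδ : ∀ᶠ i in (U : Filter Ordinal.{0}), i < δ.ord := hX.hδU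
  set Q : Ordinal.{0} → Ordinal.{0} → Ordinal.{0} → Prop := fun i x y => ∃ ν < i, T i x y ν with hQ
  -- Q0 : meaning of `Q`
  have hQ0 : ∀ β < K, ∀ᶠ i in (U : Filter Ordinal.{0}), ∀ x y, DD C v i β x → DD C v i β y →
      x ≤ y → (Q i (gg C v x i) (gg C v y i) ↔ ∃ ν < i, InP C (PL C Lab ν) y x) := by
    intro β hβ
    filter_upwards [hT β hβ, hiδ] with i a b
    intro x y hx hy hxy
    constructor
    · rintro ⟨ν, hν, h⟩
      exact ⟨ν, hν, (a x y hx hy hxy ν (hν.trans b)).mp h⟩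
    · rintro ⟨ν, hν, h⟩
      exact ⟨ν, hν, (a x y hx hy hxy ν (hν.trans b)).mpr h⟩
  -- Q1
  have hQ1 : ∀ᶠ i in (U : Filter Ordinal.{0}), ∀ c, c.card ≤ v i → ∀ a b, a < b → b < c →
      ((Q i a b → Q i b c → Q i a c) ∧ (Q i a c → Q i b c → Q i a b)) := by
    apply hX.loc (fun i c => ∀ a b, a < b → b < c →
      ((Q i a b → Q i b c → Q i a c) ∧ (Q i a c → Q i b c → Q i a b)))
    intro β hβ
    filter_upwards [hQ0 β hβ] with i hi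
    intro c hc a b hab hbc
    obtain ⟨z, hz, rfl⟩ := hX.gg_surj hβ hc
    obtain ⟨y, hy, rfl⟩ := hX.gg_surj hβ (hbc.trans hc)
    obtain ⟨x, hx, rfl⟩ := hX.gg_surj hβ (hab.trans (hbc.trans hc))
    have hxy := (hX.gg_lt_iff hβ hx hy).mp hab
    have hyz := (hX.gg_lt_iff hβ hy hz).mp hbc
    have hzK := (hX.dd_lt hβ hz).trans hβ
    rw [hi x y hx hy hxy.le, hi y z hy hz hyz.le, hi x z hx hz (hxy.trans hyz).le]
    constructor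
    · rintro ⟨ν₁, h1, h2⟩ ⟨ν₂, h3, h4⟩
      refine ⟨max ν₁ ν₂, max_lt h1 h3, ?_⟩
      have h2' := inP_mono (hEmono _ (max ν₁ ν₂) (le_max_left _ _)) h2
      have h4' := inP_mono (hEmono _ (max ν₁ ν₂) (le_max_right _ _)) h4
      exact ((cohP hC (hEcoh _) hzK h4' x).mp h2').1
    · rintro ⟨ν₁, h1, h2⟩ ⟨ν₂, h3, h4⟩
      refine ⟨max ν₁ ν₂, max_lt h1 h3, ?_⟩
      have h2' := inP_mono (hEmono _ (max ν₁ ν₂) (le_max_left _ _)) h2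
      have h4' := inP_mono (hEmono _ (max ν₁ ν₂) (le_max_right _ _)) h4
      exact (cohP hC (hEcoh _) hzK h4' x).mpr ⟨h2', hxy⟩
  -- Q2
  have hQ2 : ∀ β < K, ∀ γ < β, ∀ᶠ i in (U : Filter Ordinal.{0}),
      Q i (gg C v γ i) (gg C v β i) := by
    intro β hβ γ hγ
    obtain ⟨ν, hν, hin⟩ := hE β hβ γ hγ
    have hβ1 := hX.hK β hβ
    filter_upwards [hQ0 (succ β) hβ1, hX.ev hβ1 (lt_succ β), hX.ev hβ hγ,
      hX.hge (succ ν) (hδlim.succ_lt hν)] with i a b c d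
    rw [a γ β ((hX.dd_coh hβ1 b γ).mp c).1 b hγ.le]
    exact ⟨ν, (lt_succ ν).trans_le d, hin⟩
  -- Q3
  have hQ3 : ∀ᶠ i in (U : Filter Ordinal.{0}), ∀ b, b.card ≤ v i → ∀ a ≤ b, TR i a →
      ∃ x₀ < a, ∀ x < a, Q i x b → x ≤ x₀ := by
    apply hX.loc (fun i b => ∀ a ≤ b, TR i a → ∃ x₀ < a, ∀ x < a, Q i x b → x ≤ x₀)
    intro β hβ
    filter_upwards [hQ0 β hβ, hTR β hβ] with i h1 h2
    intro b hb a hab hTa
    obtain ⟨b', hb', rfl⟩ := hX.gg_surj hβ hb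
    obtain ⟨a', ha', rfl⟩ := hX.gg_surj hβ (hab.trans_lt hb)
    have hab' := (hX.gg_le_iff hβ ha' hb').mp hab
    obtain ⟨hLab, hcof⟩ := h2 a' ha' hTa
    have hb'K := (hX.dd_lt hβ hb').trans hβ
    obtain ⟨ξ₀, hξ₀, hξ₀'⟩ := bounded_at_label hC Lab (hLabLim _ _ hLab) hLab le_rfl b' hb'K hab'
    obtain ⟨ξ₁, hξ₁, hξ⟩ := hcof ξ₀ hξ₀
    have ha'K := (hX.dd_lt hβ ha').trans hβ
    refine ⟨gg C v ξ₁ i, hX.gg_lt ha'K hξ₁, ?_⟩
    intro x hx hQx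
    obtain ⟨x', hx', rfl⟩ := hX.gg_surj ha'K hx
    have hx'a := hX.dd_lt ha'K hx'
    have hx'β := ((hX.dd_coh hβ ha' x').mp hx').1
    obtain ⟨ν, hν, hin⟩ := (h1 x' b' hx'β hb' (hx'a.le.trans hab')).mp hQx
    have hin' := inP_mono (hEmono _ i hν.le) hin
    have h3 := hξ₀' x' hx'a hin'
    exact (hX.gg_le_iff ha'K hx' hξ₁).mpr (h3.trans hξ.le)
  -- the closure set
  obtain ⟨g, hg⟩ := hX.thr (fun β i => {z | z < gg C v β i ∧ Q i z (gg C v β i)})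
    (fun β hβ i z hz => hz.1)
    (by
      intro β hβ γ hγ
      filter_upwards [hQ1, hQ2 β hβ γ hγ, hX.ev hβ hγ] with i h1 h2 h3
      have hlt := hX.gg_lt hβ h3
      have h4 := h1 (gg C v β i) (hX.gg_card hβ)
      intro z
      constructor
      · rintro ⟨h5, h6⟩
        exact ⟨⟨h5.trans hlt, (h4 z _ h5 hlt).1 h6 h2⟩, h5⟩
      · rintro ⟨⟨h5, h6⟩, h7⟩
        exact ⟨h7, (h4 z _ h7 hlt).2 h6 h2⟩)
  have hg' : ∀ β < K, ∀ᶠ i in (U : Filter Ordinal.{0}), ∀ z < gg C v β i,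
      (z ∈ g i ↔ Q i z (gg C v β i)) := by
    intro β hβ
    filter_upwards [hg β hβ] with i hi
    intro z hz
    rw [hi z hz]
    exact ⟨fun h => h.2, fun h => ⟨hz, h⟩⟩
  -- D'
  have hD1 : ∀ᶠ i in (U : Filter Ordinal.{0}), ∀ b, b.card ≤ v i →
      ∃ x ∈ g i, b < x ∧ x.card ≤ v i := by
    apply hX.loc (fun i b => ∃ x ∈ g i, b < x ∧ x.card ≤ v i)
    intro β hβ
    have hβ1 := hX.hK β hβ
    filter_upwards [hg' (succ β) hβ1, hQ2 (succ β) hβ1 β (lt_succ β),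
      hX.ev hβ1 (lt_succ β)] with i h1 h2 h3
    intro b hb
    exact ⟨gg C v β i, (h1 _ (hX.gg_lt hβ1 h3)).mpr h2, hb, hX.gg_card hβ⟩
  -- D''
  have hD2 : ∀ᶠ i in (U : Filter Ordinal.{0}), ∀ b, b.card ≤ v i →
      b ∈ g i → ∀ a ∈ g i, a < b → Q i a b := by
    apply hX.loc (fun i b => b ∈ g i → ∀ a ∈ g i, a < b → Q i a b)
    intro β hβ
    filter_upwards [hg' β hβ, hQ1] with i h1 h2
    intro b hb hbg a hag hab
    have h3 := (h1 b hb).mp hbg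
    have h4 := (h1 a (hab.trans hb)).mp hag
    exact (h2 _ (hX.gg_card hβ) a b hab hb).2 h4 h3
  obtain ⟨i, hi⟩ := (((hD1.and hD2).and hQ3).and hTRstat).exists
  obtain ⟨⟨⟨h1, h2⟩, h3⟩, h4⟩ := hi
  obtain ⟨a, ha1, ha2, ha3⟩ := h4 (fun x => sInf {y | y ∈ g i ∧ x < y ∧ y.card ≤ v i}) (by
    intro x hx
    obtain ⟨y, hy⟩ := h1 x hx
    exact (csInf_mem (s := {y | y ∈ g i ∧ x < y ∧ y.card ≤ v i}) ⟨y, hy⟩).2.2) (by
    intro x y hxy hy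
    obtain ⟨z, hz⟩ := h1 y hy
    have h5 := csInf_mem (s := {z | z ∈ g i ∧ y < z ∧ z.card ≤ v i}) ⟨z, hz⟩
    exact csInf_le' ⟨h5.1, hxy.trans_lt h5.2.1, h5.2.2⟩)
  obtain ⟨b, hb1, hb2, hb3⟩ := h1 a ha1
  obtain ⟨x₀, hx₀, hx₀'⟩ := h3 b hb3 a hb2.le ha2
  have h5 := ha3 x₀ hx₀
  obtain ⟨y, hy⟩ := h1 x₀ ((Ordinal.card_le_card hx₀.le).trans ha1)
  have h6 := csInf_mem (s := {z | z ∈ g i ∧ x₀ < z ∧ z.card ≤ v i}) ⟨y, hy⟩
  have h7 := h2 b hb3 hb1 _ h6.1 (h5.trans hb2)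
  exact absurd (hx₀' _ h5 h7) (not_le.mpr h6.2.1)

end TH732.FR
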