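import Pool.Agent.W590.FrA
set_option autoImplicit false
open Ordinal Cardinal Set Order

/-! Stationary subsets of a successor cardinal, via closure points of functions. -/

namespace TH732.FR

/-- stationarity in `K` -/
def Stat (K : Ordinal.{0}) (S : Ordinal.{0} → Prop) : Prop :=
  ∀ F : Ordinal.{0} → Ordinal.{0}, (∀ x < K, F x < K) → ∃ α, S α ∧ α < K ∧ ∀ x < α, F x < α

/-- cofinality omega -/
def Cw (α : Ordinal.{0}) : Prop := ∃ s : ℕ → Ordinal.{0}, (∀ n, s n < α) ∧ ∀ x < α, ∃ n, x < s n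

theorem Stat.mono {K : Ordinal.{0}} {S S' : Ordinal.{0} → Prop} (h : Stat K S)
    (hSS : ∀ α < K, S α → S' α) : Stat K S' := by
  intro F hF
  obtain ⟨α, h1, h2, h3⟩ := h F hF
  exact ⟨α, hSS α h2 h1, h2, h3⟩

theorem sup_lt {κ : Cardinal.{0}} (hκ : ℵ₀ ≤ κ) (θ : Ordinal.{0}) (hθ : θ < (succ κ).ord)
    (f : Ordinal.{0} → Ordinal.{0}) (hf : ∀ i < θ, f i < (succ κ).ord) :
    sSup (f '' Iio θ) < (succ κ).ord := by
  apply Ordinal.sSup_lt_of_lt_cof
  · have h1 : #(f '' Iio θ) ≤ Cardinal.lift.{1} θ.card := by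
      rw [← Cardinal.mk_Iio_ordinal]
      exact Cardinal.mk_image_le
    refine h1.trans_lt ?_
    rw [← Ordinal.lift_cof, Cardinal.lift_lt, (Cardinal.isRegular_succ hκ).cof_ord]
    exact Cardinal.lt_ord.1 hθ
  · rintro _ ⟨i, hi, rfl⟩
    exact hf i hi

theorem le_sup (θ : Ordinal.{0}) (f : Ordinal.{0} → Ordinal.{0}) (i : Ordinal.{0}) (hi : i < θ) :
    f i ≤ sSup (f '' Iio θ) :=
  le_csSup Ordinal.bddAbove_of_small ⟨i, hi, rfl⟩

theorem Stat.part {κ : Cardinal.{0}} (hκ : ℵ₀ ≤ κ) {S : Ordinal.{0} → Prop}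
    (h : Stat (succ κ).ord S) (θ : Ordinal.{0}) (hθ : θ < (succ κ).ord)
    (φ : Ordinal.{0} → Ordinal.{0}) (hφ : ∀ α, S α → φ α < θ) :
    ∃ η < θ, Stat (succ κ).ord (fun α => S α ∧ φ α = η) := by
  by_contra hcon
  push Not at hcon
  have h1 : ∀ η, ∃ F : Ordinal.{0} → Ordinal.{0}, η < θ → (∀ x < (succ κ).ord, F x < (succ κ).ord) ∧
      ∀ α, S α ∧ φ α = η → α < (succ κ).ord → ∃ x < α, α ≤ F x := by
    intro η
    by_cases hη : η < θ
    · have h2 := hcon η hη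
      unfold Stat at h2
      push Not at h2
      obtain ⟨F, hF1, hF2⟩ := h2
      exact ⟨F, fun _ => ⟨hF1, fun α h1 h2 => hF2 α h1 h2⟩⟩
    · exact ⟨id, fun h => absurd h hη⟩
  choose F hF using h1
  obtain ⟨α, hα1, hα2, hα3⟩ := h (fun x => sSup ((fun η => F η x) '' Iio θ)) (by
    intro x hx
    exact sup_lt hκ θ hθ _ (fun i hi => (hF i hi).1 x hx))
  obtain ⟨x, hx, hx2⟩ := (hF (φ α) (hφ α hα1)).2 α ⟨hα1, rfl⟩ hα2
  have h3 := hα3 x hx
  have h4 := le_sup θ (fun η => F η x) (φ α) (hφ α hα1)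
  exact absurd (h4.trans_lt h3) (not_lt.mpr hx2)

theorem stat_omega {κ : Cardinal.{0}} (hκ : ℵ₀ ≤ κ) :
    Stat (succ κ).ord (fun α => Cw α ∧ IsSuccLimit α) := by
  intro F hF
  set K := (succ κ).ord with hK
  have hKlim : IsSuccLimit K := Cardinal.isSuccLimit_ord (hκ.trans (Order.le_succ κ))
  have hKs : ∀ x < K, succ x < K := fun x hx => hKlim.succ_lt hx
  let G : Ordinal.{0} → Ordinal.{0} := fun a => max (succ a) (succ (sSup (F '' Iio (succ a))))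
  let s : ℕ → Ordinal.{0} := fun n => Nat.rec 0 (fun _ a => G a) n
  have hs : ∀ n, s (n+1) = G (s n) := fun n => rfl
  have hsK : ∀ n, s n < K := by
    intro n
    induction n with
    | zero => exact hKlim.bot_lt
    | succ n ih =>
      rw [hs]
      exact max_lt (hKs _ ih) (hKs _ (sup_lt hκ _ (hKs _ ih) F
        (fun i hi => hF i (hi.trans (hKs _ ih)))))
  have hslt : ∀ n, s n < s (n+1) := by
    intro n
    rw [hs]
    exact (lt_succ _).trans_le (le_max_left _ _)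
  have hmono : Monotone s := monotone_nat_of_le_succ (fun n => (hslt n).le)
  set α := ⨆ n, s n with hα
  have hb : BddAbove (range s) := Ordinal.bddAbove_of_small
  have hle : ∀ n, s n ≤ α := fun n => le_ciSup hb n
  have hlt : ∀ n, s n < α := fun n => (hslt n).trans_le (hle (n+1))
  have hex : ∀ x < α, ∃ n, x < s n := by
    intro x hx
    exact exists_lt_of_lt_ciSup hx
  have hαK : α < K := by
    have hreg := (Cardinal.isRegular_succ hκ).cof_ord
    apply Ordinal.iSup_lt_of_lt_cof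
    · rw [hreg]
      simp only [mk_nat]
      exact hκ.trans_lt (lt_succ κ)
    · exact hsK
  have hαlim : IsSuccLimit α := by
    rcases Ordinal.zero_or_succ_or_isSuccLimit α with h0 | ⟨t, ht⟩ | hl
    · exact absurd (h0 ▸ hlt 0) (not_lt_bot)
    · exfalso
      obtain ⟨n, hn⟩ := hex t (by rw [← ht]; exact lt_succ t)
      have h1 := hlt n
      rw [← ht] at h1
      exact absurd hn (not_lt.mpr (Order.lt_succ_iff.mp h1))
    · exact hl
  refine ⟨α, ⟨⟨s, hlt, hex⟩, hαlim⟩, hαK, ?_⟩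
  intro x hx
  obtain ⟨n, hn⟩ := hex x hx
  have h1 : F x ≤ sSup (F '' Iio (succ (s n))) := le_sup _ F x (hn.trans (lt_succ _))
  have h2 : sSup (F '' Iio (succ (s n))) < s (n+1) := by
    rw [hs]
    exact (lt_succ _).trans_le (le_max_right _ _)
  exact (h1.trans_lt h2).trans (hlt (n+1))

/-- pigeonhole -/
theorem pig {τ : Type 1} (θ : Ordinal.{0}) (f : Ordinal.{0} → τ) (hθ : ℵ₀ ≤ θ.card)
    (h : #τ < Cardinal.lift.{1} θ.card) (μ : Ordinal.{0}) (hμ : Cardinal.lift.{1} μ.card ≤ #τ) :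
    ∃ t : τ, ∃ e : Ordinal.{0} → Ordinal.{0}, (∀ ι < μ, e ι < θ ∧ f (e ι) = t) ∧
      (∀ ι < μ, ∀ ι' < μ, e ι = e ι' → ι = ι') := by
  classical
  obtain ⟨t, ht⟩ := Cardinal.infinite_pigeonhole_card_lt (β := Iio θ) (α := τ) (fun x => f x.1)
    (by rw [Cardinal.mk_Iio_ordinal]; exact h)
    (by rw [Cardinal.mk_Iio_ordinal, Cardinal.aleph0_le_lift]; exact hθ)
  have h2 : #(Iio μ) ≤ #((fun x : Iio θ => f x.1) ⁻¹' {t}) := by
    rw [Cardinal.mk_Iio_ordinal]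
    exact hμ.trans ht.le
  obtain ⟨g⟩ := h2
  refine ⟨t, fun ι => if h : ι < μ then (g ⟨ι, h⟩).1.1 else 0, ?_, ?_⟩
  · intro ι hι
    simp only [dif_pos hι]
    exact ⟨(g ⟨ι, hι⟩).1.2, (g ⟨ι, hι⟩).2⟩
  · intro ι hι ι' hι' he
    simp only [dif_pos hι, dif_pos hι'] at he
    have h3 := g.injective (Subtype.ext (Subtype.ext he))
    exact congrArg Subtype.val h3

/-- Ulam's splitting. -/
theorem ulam {κ : Cardinal.{0}} (hκ : ℵ₀ ≤ κ) {S : Ordinal.{0} → Prop}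
    (h : Stat (succ κ).ord S) (hS0 : ∀ α, S α → 0 < α) (μ : Ordinal.{0}) (hμ : μ.card ≤ κ) :
    ∃ R : Ordinal.{0} → Ordinal.{0} → Prop, (∀ ι < μ, Stat (succ κ).ord (fun ξ => S ξ ∧ R ι ξ)) ∧
      ∀ ξ < (succ κ).ord, ∀ ι < μ, ∀ ι' < μ, R ι ξ → R ι' ξ → ι = ι' := by
  set K := (succ κ).ord with hK
  have hKlim : IsSuccLimit K := Cardinal.isSuccLimit_ord (hκ.trans (Order.le_succ κ))
  have hκK : κ.ord < K := Cardinal.ord_lt_ord.mpr (lt_succ κ)
  have hκpos : 0 < κ.ord := (Cardinal.isSuccLimit_ord hκ).bot_lt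
  have he : ∀ ξ : Ordinal.{0}, ∃ s : Ordinal.{0} → Ordinal.{0}, (∀ x, s x < κ.ord) ∧
      (ξ < K → ∀ x < ξ, ∀ y < ξ, s x = s y → x = y) := by
    intro ξ
    by_cases hξ : ξ < K
    · obtain ⟨s, hs1, hs2⟩ := W590.frA_inj ξ κ (Order.lt_succ_iff.mp (Cardinal.lt_ord.mp hξ))
      refine ⟨fun x => if x < ξ then s x else 0, ?_, ?_⟩
      · intro x
        dsimp only
        split_ifs with hx
        · exact hs1 x hx
        · exact hκpos
      · intro _ x hx y hy hxy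
        simp only [if_pos hx, if_pos hy] at hxy
        exact hs2 x hx y hy hxy
    · exact ⟨fun _ => 0, fun _ => hκpos, fun h => absurd h hξ⟩
  choose e he1 he2 using he
  have h1 : ∀ α, ∃ η, η < κ.ord ∧ (α < K → Stat K (fun ξ => (S ξ ∧ α < ξ) ∧ e ξ α = η)) := by
    intro α
    by_cases hα : α < K
    · have h2 : Stat K (fun ξ => S ξ ∧ α < ξ) := by
        intro F hF
        obtain ⟨ξ, h3, h4, h5⟩ := h (fun x => max (F x) α) (fun x hx => max_lt (hF x hx) hα)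
        refine ⟨ξ, ⟨h3, ?_⟩, h4, fun x hx => (le_max_left _ _).trans_lt (h5 x hx)⟩
        exact (le_max_right _ _).trans_lt (h5 0 (hS0 ξ h3))
      obtain ⟨η, hη, h3⟩ := h2.part hκ κ.ord hκK (fun ξ => e ξ α) (fun ξ _ => he1 ξ α)
      exact ⟨η, hη, fun _ => h3⟩
    · exact ⟨0, hκpos, fun h => absurd h hα⟩
  choose η hη1 hη2 using h1
  have hKcard : K.card = succ κ := Cardinal.card_ord _
  obtain ⟨t, a, ha1, ha2⟩ := pig (τ := Iio κ.ord) K (fun α => ⟨η α, hη1 α⟩)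
    (by rw [hKcard]; exact hκ.trans (Order.le_succ κ))
    (by rw [Cardinal.mk_Iio_ordinal, hKcard, Cardinal.card_ord, Cardinal.lift_lt]; exact lt_succ κ)
    μ (by rw [Cardinal.mk_Iio_ordinal, Cardinal.card_ord, Cardinal.lift_le]; exact hμ)
  refine ⟨fun ι ξ => a ι < ξ ∧ e ξ (a ι) = t.1, ?_, ?_⟩
  · intro ι hι
    have h2 := ha1 ι hι
    refine (hη2 (a ι) h2.1).mono ?_
    rintro ξ _ ⟨⟨h3, h4⟩, h5⟩
    refine ⟨h3, h4, ?_⟩
    rw [h5, ← h2.2]
  · rintro ξ hξ ι hι ι' hι' ⟨h2, h3⟩ ⟨h4, h5⟩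
    exact ha2 ι hι ι' hι' (he2 ξ hξ _ h2 _ h4 (h3.trans h5.symm))

end TH732.FR
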