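import Pool.Agent.TH732.FR.Th
set_option autoImplicit false
open Ordinal Cardinal Set Order

/-! Transfer of stationarity to the threads. -/

namespace TH732.FR
open W590F

/-- stationarity in the successor of `c`, tested by monotone functions -/
def StatI (c : Cardinal.{0}) (T : Ordinal.{0} → Prop) : Prop :=
  ∀ F : Ordinal.{0} → Ordinal.{0}, (∀ x, x.card ≤ c → (F x).card ≤ c) →
    (∀ x y, x ≤ y → y.card ≤ c → F x ≤ F y) → ∃ a, a.card ≤ c ∧ T a ∧ ∀ x < a, F x < a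

variable {δ : Cardinal.{0}} {U : Ultrafilter Ordinal.{0}}
    {C : Ordinal.{0} → Set Ordinal.{0}} {v : Ordinal.{0} → Cardinal.{0}}
    {ρ : (Ordinal.{0} → Ordinal.{0}) → Ordinal.{0}} {K : Ordinal.{0}}

theorem Ctx.stat_transfer (hX : Ctx δ U C v ρ K)
    (hω : ∀ s : ℕ → Ordinal.{0} → Prop, (∀ n, ∀ᶠ i in (U : Filter Ordinal.{0}), s n i) →
      ∀ᶠ i in (U : Filter Ordinal.{0}), ∀ n, s n i)
    {S : Ordinal.{0} → Prop} (hS : Stat K S) (hSw : ∀ α, S α → Cw α)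
    (T : Ordinal.{0} → Ordinal.{0} → Prop)
    (hT : ∀ β < K, ∀ᶠ i in (U : Filter Ordinal.{0}), ∀ x, DD C v i β x → S x →
      T i (gg C v x i)) :
    ∀ᶠ i in (U : Filter Ordinal.{0}), StatI (v i) (T i) := by
  by_contra hcon
  rw [← Ultrafilter.eventually_not] at hcon
  have h1 : ∀ i : Ordinal.{0}, ∃ F : Ordinal.{0} → Ordinal.{0}, ¬ StatI (v i) (T i) →
      ((∀ x, x.card ≤ v i → (F x).card ≤ v i) ∧
        (∀ x y, x ≤ y → y.card ≤ v i → F x ≤ F y) ∧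
        ∀ a, a.card ≤ v i → T i a → ∃ x < a, a ≤ F x) := by
    intro i
    by_cases hi : ¬ StatI (v i) (T i)
    · have hi' := hi
      unfold StatI at hi'
      push Not at hi'
      obtain ⟨F, h1, h2, h3⟩ := hi'
      exact ⟨F, fun _ => ⟨h1, h2, h3⟩⟩
    · exact ⟨id, fun h => absurd h hi⟩
  choose F hF using h1
  have h2 : ∀ γ : Ordinal.{0}, ∃ β, γ < K → β < K ∧
      ∀ᶠ i in (U : Filter Ordinal.{0}), F i (gg C v γ i) < gg C v β i := by
    intro γ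
    by_cases hγ : γ < K
    · obtain ⟨β, hβ, hβ'⟩ := hX.cover (fun i => F i (gg C v γ i)) (by
        filter_upwards [hcon] with i hi
        exact (hF i hi).1 _ (hX.gg_card hγ))
      exact ⟨β, fun _ => ⟨hβ, hβ'⟩⟩
    · exact ⟨0, fun h => absurd h hγ⟩
  choose G hG using h2
  obtain ⟨α, hSα, hαK, hGα⟩ := hS G (fun x hx => (hG x hx).1)
  obtain ⟨s, hs1, hs2⟩ := hSw α hSα
  have hα1K := hX.hK α hαK
  have h3 : ∀ i : Ordinal.{0}, ∃ x' : Ordinal.{0}, (∃ x, DD C v i α x ∧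
      gg C v α i ≤ F i (gg C v x i)) → (DD C v i α x' ∧ gg C v α i ≤ F i (gg C v x' i)) := by
    intro i
    by_cases hi : ∃ x, DD C v i α x ∧ gg C v α i ≤ F i (gg C v x i)
    · obtain ⟨x, hx⟩ := hi
      exact ⟨x, fun _ => hx⟩
    · exact ⟨0, fun h => absurd h hi⟩
  choose x' hx' using h3
  have h4 : ∀ᶠ i in (U : Filter Ordinal.{0}), DD C v i α (x' i) ∧
      gg C v α i ≤ F i (gg C v (x' i) i) := by
    filter_upwards [hT (succ α) hα1K, hcon, hX.ev hα1K (lt_succ α)] with i a b c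
    apply hx' i
    obtain ⟨x, hx, hx2⟩ := (hF i b).2.2 (gg C v α i) (hX.gg_card hαK) (a α c hSα)
    obtain ⟨y, hy, rfl⟩ := hX.gg_surj hαK hx
    exact ⟨y, hy, hx2⟩
  have h5 : ∃ n, ∀ᶠ i in (U : Filter Ordinal.{0}), x' i < s n := by
    by_contra hc
    push Not at hc
    have h6 := hω (fun n i => ¬ x' i < s n) (fun n => by
      filter_upwards [hc n] with i hi using not_lt.mpr hi)
    obtain ⟨i, hi1, hi2⟩ := (h4.and h6).exists
    obtain ⟨n, hn⟩ := hs2 _ (hX.dd_lt hαK hi1.1)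
    exact hi2 n hn
  obtain ⟨n, hn⟩ := h5
  have hsn := hs1 n
  have hsnK := hsn.trans hαK
  have hGn := hGα _ hsn
  obtain ⟨i, hi⟩ := (((h4.and hn).and ((hX.ev hαK hsn).and (hX.ev hαK hGn))).and
    ((hG _ hsnK).2.and hcon)).exists
  obtain ⟨⟨⟨⟨a1, a2⟩, a3⟩, a4, a5⟩, a6, a7⟩ := hi
  have e1 : gg C v (x' i) i ≤ gg C v (s n) i := ((hX.gg_lt_iff hαK a1 a4).mpr a3).le
  have e2 := (hF i a7).2.1 _ _ e1 (hX.gg_card hsnK)
  have e3 := hX.gg_lt hαK a5
  exact absurd (((a2.trans e2).trans_lt a6).trans e3) (lt_irrefl _)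

end TH732.FR
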