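import Pool.Agent.TH732.FR.Ul
set_option autoImplicit false
open Ordinal Cardinal Set Order

/-! Threads of relations. -/

namespace TH732.FR
open W590F

/-- coding of triples -/
noncomputable def code (m a b ν : Ordinal.{0}) : Ordinal.{0} := m * (2 ^ (succ b) + a) + ν

theorem lt_two_opow (b : Ordinal.{0}) : b < 2 ^ (succ b) :=
  (lt_succ b).trans_le (Ordinal.right_le_opow _ (by norm_num))

theorem code_inner_lt {a b b' a' : Ordinal.{0}} (hab : a ≤ b) (hb : b < b') :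
    2 ^ (succ b) + a < 2 ^ (succ b') + a' := by
  have h1 : (2 : Ordinal.{0}) ^ (succ b) + a < 2 ^ (succ b) + 2 ^ (succ b) := by
    have : a < 2 ^ (succ b) := hab.trans_lt (lt_two_opow b)
    gcongr
  have h2 : (2 : Ordinal.{0}) ^ (succ b) + 2 ^ (succ b) = 2 ^ (succ (succ b)) := by
    rw [Ordinal.opow_succ 2 (succ b), Ordinal.mul_two]
  rw [h2] at h1
  refine h1.trans_le ?_
  refine le_trans ?_ le_self_add
  exact Ordinal.opow_le_opow_right (by norm_num) (Order.succ_le_succ (Order.succ_le_of_lt hb))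

theorem code_inj {m a b ν a' b' ν' : Ordinal.{0}} (hab : a ≤ b) (hab' : a' ≤ b') (hν : ν < m)
    (hν' : ν' < m) (h : code m a b ν = code m a' b' ν') : a = a' ∧ b = b' ∧ ν = ν' := by
  have hm0 : m ≠ 0 := (bot_le.trans_lt hν).ne'
  unfold code at h
  have h1 : 2 ^ (succ b) + a = 2 ^ (succ b') + a' := by
    have h5 := congrArg (fun x => x / m) h
    rwa [Ordinal.mul_add_div _ hm0, Ordinal.mul_add_div _ hm0, Ordinal.div_eq_zero_of_lt hν,
          Ordinal.div_eq_zero_of_lt hν', add_zero, add_zero] at h5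
  have h2 : ν = ν' := by
    rw [h1] at h
    exact (add_right_inj _).mp h
  have h3 : b = b' := by
    rcases lt_trichotomy b b' with h4 | h4 | h4
    · exact absurd h1 (code_inner_lt hab h4).ne
    · exact h4
    · exact absurd h1.symm (code_inner_lt hab' h4).ne
  subst h3
  exact ⟨(add_right_inj _).mp h1, rfl, h2⟩

theorem lt_code {m a b ν : Ordinal.{0}} (hν : ν < m) : b < code m a b ν := by
  have hm : 0 < m := bot_le.trans_lt hν
  unfold code
  calc b < 2 ^ (succ b) := lt_two_opow b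
    _ ≤ 2 ^ (succ b) + a := le_self_add
    _ ≤ m * (2 ^ (succ b) + a) := Ordinal.le_mul_right _ hm
    _ ≤ _ := le_self_add

theorem code_lt {m a b ν f : Ordinal.{0}} (hab : a ≤ b) (hb : b < f) (hν : ν < m) :
    code m a b ν < m * (2 ^ f + f) := by
  unfold code
  have h1 : (2 : Ordinal.{0}) ^ (succ b) ≤ 2 ^ f :=
    Ordinal.opow_le_opow_right (by norm_num) (Order.succ_le_of_lt hb)
  have h2 : 2 ^ (succ b) + a < 2 ^ f + f := by
    calc 2 ^ (succ b) + a ≤ 2 ^ f + a := by gcongr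
      _ < 2 ^ f + f := by
        have := hab.trans_lt hb
        gcongr
  calc m * (2 ^ (succ b) + a) + ν < m * (2 ^ (succ b) + a) + m := by gcongr
    _ = m * ((2 ^ (succ b) + a) + 1) := by rw [mul_add m (2 ^ (succ b) + a) 1, mul_one]
    _ ≤ m * (2 ^ f + f) := mul_le_mul_right (Order.add_one_le_of_lt h2) m

theorem card_bound {m f : Ordinal.{0}} {c : Cardinal.{0}} (hc : ℵ₀ ≤ c) (hm : m.card ≤ c)
    (hf : f.card ≤ c) : (m * (2 ^ f + f)).card ≤ c := by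
  rw [Ordinal.card_mul, Ordinal.card_add]
  have h1 : ((2 : Ordinal.{0}) ^ f).card ≤ c := by
    refine (Ordinal.card_opow_le 2 f).trans (max_le hc (max_le ?_ hf))
    refine le_trans ?_ hc
    exact (Ordinal.card_lt_aleph0.mpr (Ordinal.nat_lt_omega0 2)).le
  exact (mul_le_mul' hm (Cardinal.add_le_of_le hc h1 hf)).trans (Cardinal.mul_eq_self hc).le

variable {δ : Cardinal.{0}} {U : Ultrafilter Ordinal.{0}}
    {C : Ordinal.{0} → Set Ordinal.{0}} {v : Ordinal.{0} → Cardinal.{0}}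
    {ρ : (Ordinal.{0} → Ordinal.{0}) → Ordinal.{0}} {K : Ordinal.{0}}

theorem Ctx.dd_lt (hX : Ctx δ U C v ρ K) {β x i : Ordinal.{0}} (hβ : β < K) (h : DD C v i β x) :
    x < β := lt_of_inD hX.hC β hβ x h

theorem Ctx.dd_coh (hX : Ctx δ U C v ρ K) {β x i : Ordinal.{0}} (hβ : β < K) (h : DD C v i β x)
    (y : Ordinal.{0}) : DD C v i x y ↔ (DD C v i β y ∧ y < x) := coh hX.hC hβ h y

theorem Ctx.gg_lt_iff (hX : Ctx δ U C v ρ K) {β x y i : Ordinal.{0}} (hβ : β < K)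
    (hx : DD C v i β x) (hy : DD C v i β y) : gg C v x i < gg C v y i ↔ x < y := by
  constructor
  · intro h
    by_contra hc
    push Not at hc
    rcases hc.lt_or_eq with h1 | h1
    · exact absurd h (not_lt.mpr (hX.gg_lt ((hX.dd_lt hβ hx).trans hβ)
        ((hX.dd_coh hβ hx y).mpr ⟨hy, h1⟩)).le)
    · rw [h1] at h; exact lt_irrefl _ h
  · intro h
    exact hX.gg_lt ((hX.dd_lt hβ hy).trans hβ) ((hX.dd_coh hβ hy x).mpr ⟨hx, h⟩)

theorem Ctx.gg_le_iff (hX : Ctx δ U C v ρ K) {β x y i : Ordinal.{0}} (hβ : β < K)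
    (hx : DD C v i β x) (hy : DD C v i β y) : gg C v x i ≤ gg C v y i ↔ x ≤ y := by
  rw [← not_lt, ← not_lt, hX.gg_lt_iff hβ hy hx]

theorem Ctx.gg_inj (hX : Ctx δ U C v ρ K) {β x y i : Ordinal.{0}} (hβ : β < K)
    (hx : DD C v i β x) (hy : DD C v i β y) (h : gg C v x i = gg C v y i) : x = y :=
  le_antisymm ((hX.gg_le_iff hβ hx hy).mp h.le) ((hX.gg_le_iff hβ hy hx).mp h.ge)

theorem Ctx.gg_surj (hX : Ctx δ U C v ρ K) {β i a : Ordinal.{0}} (hβ : β < K)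
    (ha : a < gg C v β i) : ∃ x, DD C v i β x ∧ gg C v x i = a := exists_rk hX.hC β hβ a ha

theorem Ctx.gg_card (hX : Ctx δ U C v ρ K) {β i : Ordinal.{0}} (hβ : β < K) :
    (gg C v β i).card ≤ v i := card_rk_le hX.hC (v i) (hX.hvinf i) hβ

theorem Ctx.thrR (hX : Ctx δ U C v ρ K) (m : Ordinal.{0}) (hmv : ∀ i, m.card ≤ v i)
    (R : Ordinal.{0} → Ordinal.{0} → Ordinal.{0} → Prop) :
    ∃ T : Ordinal.{0} → Ordinal.{0} → Ordinal.{0} → Ordinal.{0} → Prop,
      ∀ β < K, ∀ᶠ i in (U : Filter Ordinal.{0}), ∀ x y, DD C v i β x → DD C v i β y → x ≤ y →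
        ∀ ν < m, (T i (gg C v x i) (gg C v y i) ν ↔ R x y ν) := by
  obtain ⟨g, hg⟩ := hX.thr
    (fun β i => {z | z < gg C v β i ∧ ∃ x y ν, DD C v i β x ∧ DD C v i β y ∧ x ≤ y ∧ ν < m ∧
      R x y ν ∧ z = code m (gg C v x i) (gg C v y i) ν})
    (fun β hβ i z hz => hz.1)
    (by
      intro β hβ γ hγ
      filter_upwards [hX.ev hβ hγ] with i hi
      have hγK := hγ.trans hβ
      intro z
      constructor
      · rintro ⟨h1, x, y, ν, hx, hy, hxy, hν, hR, rfl⟩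
        exact ⟨⟨h1.trans (hX.gg_lt hβ hi), x, y, ν, ((hX.dd_coh hβ hi x).mp hx).1,
          ((hX.dd_coh hβ hi y).mp hy).1, hxy, hν, hR, rfl⟩, h1⟩
      · rintro ⟨⟨h1, x, y, ν, hx, hy, hxy, hν, hR, rfl⟩, h2⟩
        have h3 : gg C v y i < gg C v γ i := (lt_code hν).trans h2
        have hyγ : y < γ := (hX.gg_lt_iff hβ hy hi).mp h3
        exact ⟨h2, x, y, ν, (hX.dd_coh hβ hi x).mpr ⟨hx, hxy.trans_lt hyγ⟩,
          (hX.dd_coh hβ hi y).mpr ⟨hy, hyγ⟩, hxy, hν, hR, rfl⟩)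
  refine ⟨fun i a b ν => code m a b ν ∈ g i, ?_⟩
  intro β hβ
  obtain ⟨β₁, hβ₁, hcov⟩ := hX.cover (fun i => m * (2 ^ (gg C v β i) + gg C v β i))
    (Filter.Eventually.of_forall (fun i => card_bound (hX.hvinf i) (hmv i) (hX.gg_card hβ)))
  set β' := max β₁ (succ β) with hβ'
  have hβ'K : β' < K := max_lt hβ₁ (hX.hK β hβ)
  have hββ' : β < β' := (lt_succ β).trans_le (le_max_right _ _)
  have hβ₁' : ∀ᶠ i in (U : Filter Ordinal.{0}), gg C v β₁ i ≤ gg C v β' i := by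
    rcases (le_max_left β₁ (succ β)).lt_or_eq with h | h
    · filter_upwards [hX.ev hβ'K h] with i hi using (hX.gg_lt hβ'K hi).le
    · filter_upwards with i
      rw [hβ', ← h]
  filter_upwards [hg β' hβ'K, hcov, hβ₁', hX.ev hβ'K hββ'] with i h1 h2 h3 h4
  intro x y hx hy hxy ν hν
  have hx' := ((hX.dd_coh hβ'K h4 x).mp hx).1
  have hy' := ((hX.dd_coh hβ'K h4 y).mp hy).1
  have hab : gg C v x i ≤ gg C v y i := (hX.gg_le_iff hβ hx hy).mpr hxy
  have hlt : code m (gg C v x i) (gg C v y i) ν < gg C v β' i :=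
    ((code_lt hab (hX.gg_lt hβ hy) hν).trans h2).trans_le h3
  show code m (gg C v x i) (gg C v y i) ν ∈ g i ↔ _
  rw [h1 _ hlt]
  constructor
  · rintro ⟨_, x₁, y₁, ν₁, hx₁, hy₁, hxy₁, hν₁, hR, he⟩
    obtain ⟨e1, e2, e3⟩ := code_inj hab ((hX.gg_le_iff hβ'K hx₁ hy₁).mpr hxy₁) hν hν₁ he
    rw [hX.gg_inj hβ'K hx' hx₁ e1, hX.gg_inj hβ'K hy' hy₁ e2, e3]
    exact hR
  · intro hR
    exact ⟨hlt, x, y, ν, hx', hy', hxy, hν, hR, rfl⟩

end TH732.FR
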