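import Pool.Agent.W590.FrH
import Pool.Agent.TH732.FR.St
set_option autoImplicit false
open Ordinal Cardinal Set Order

/-! Threads through the ultrapower when there is no fresh subset. -/

namespace TH732.FR
open W590F

/-- The standing hypotheses. -/
structure Ctx (δ : Cardinal.{0}) (U : Ultrafilter Ordinal.{0})
    (C : Ordinal.{0} → Set Ordinal.{0}) (v : Ordinal.{0} → Cardinal.{0})
    (ρ : (Ordinal.{0} → Ordinal.{0}) → Ordinal.{0}) (K : Ordinal.{0}) : Prop where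
  hδU : Set.Iio δ.ord ∈ U
  hge : ∀ i₀ < δ.ord, {i | i₀ ≤ i} ∈ U
  hρ : ∀ h h' : Ordinal.{0} → Ordinal.{0},
          ρ h < ρ h' ↔ ∀ᶠ i in (U : Filter Ordinal.{0}), h i < h' i
  hρ' : ∀ h : Ordinal.{0} → Ordinal.{0}, ∀ β < ρ h, ∃ h' : Ordinal.{0} → Ordinal.{0}, ρ h' = β
  hK : ∀ β < K, succ β < K
  hC : Sq C K
  hvmono : Monotone v
  hvinf : ∀ i, ℵ₀ ≤ v i
  hD : ∀ β < K, ∀ x < β, ∃ i < δ.ord, DD C v i β x
  hcard : ∀ h : Ordinal.{0} → Ordinal.{0},
      (∀ᶠ i in (U : Filter Ordinal.{0}), (h i).card ≤ v i) → ρ h < K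
  hno : ¬ ∃ A : Set Ordinal.{0},
        A ⊆ Set.Iio K ∧
        (∀ β < K, ∃ γ ∈ A, β < γ) ∧
        (¬ ∃ g : Ordinal.{0} → Set Ordinal.{0}, ∀ η : Ordinal.{0},
            η ∈ A ↔ ∃ f : Ordinal.{0} → Ordinal.{0},
              ρ f = η ∧ ∀ᶠ i in (U : Filter Ordinal.{0}), f i ∈ g i) ∧
        (∀ α < K, ∃ g : Ordinal.{0} → Set Ordinal.{0}, ∀ η : Ordinal.{0},
            η ∈ A ∩ Set.Iio α ↔ ∃ f : Ordinal.{0} → Ordinal.{0},
              ρ f = η ∧ ∀ᶠ i in (U : Filter Ordinal.{0}), f i ∈ g i)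

variable {δ : Cardinal.{0}} {U : Ultrafilter Ordinal.{0}}
    {C : Ordinal.{0} → Set Ordinal.{0}} {v : Ordinal.{0} → Cardinal.{0}}
    {ρ : (Ordinal.{0} → Ordinal.{0}) → Ordinal.{0}} {K : Ordinal.{0}}

theorem Ctx.ev (hX : Ctx δ U C v ρ K) {β γ : Ordinal.{0}} (hβ : β < K) (hγ : γ < β) :
    ∀ᶠ i in (U : Filter Ordinal.{0}), DD C v i β γ := by
  obtain ⟨i0, hi0, h⟩ := hX.hD β hβ γ hγ
  have := hX.hge i0 hi0
  filter_upwards [this] with i hi
  exact inD_mono (Cardinal.lift_le.mpr (hX.hvmono hi)) h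

theorem Ctx.gg_lt (hX : Ctx δ U C v ρ K) {β γ i : Ordinal.{0}} (hβ : β < K)
    (h : DD C v i β γ) : gg C v γ i < gg C v β i := rk_lt hX.hC hβ h

theorem Ctx.le_rho (hX : Ctx δ U C v ρ K) : ∀ β < K, β ≤ ρ (fun i => gg C v β i) := by
  intro β
  induction β using WellFoundedLT.induction with
  | ind β ih =>
    intro hβ
    refine le_of_forall_lt ?_
    intro γ hγ
    refine (ih γ hγ (hγ.trans hβ)).trans_lt ?_
    rw [hX.hρ]
    filter_upwards [hX.ev hβ hγ] with i hi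
    exact hX.gg_lt hβ hi

theorem Ctx.cover (hX : Ctx δ U C v ρ K) (b : Ordinal.{0} → Ordinal.{0})
    (hb : ∀ᶠ i in (U : Filter Ordinal.{0}), (b i).card ≤ v i) :
    ∃ β < K, ∀ᶠ i in (U : Filter Ordinal.{0}), b i < gg C v β i := by
  have h1 := hX.hcard b hb
  have h2 := hX.hK _ h1
  refine ⟨succ (ρ b), h2, ?_⟩
  rw [← hX.hρ]
  exact (lt_succ _).trans_le (hX.le_rho _ h2)

theorem Ctx.loc (hX : Ctx δ U C v ρ K) (Φ : Ordinal.{0} → Ordinal.{0} → Prop)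
    (h : ∀ β < K, ∀ᶠ i in (U : Filter Ordinal.{0}), ∀ b < gg C v β i, Φ i b) :
    ∀ᶠ i in (U : Filter Ordinal.{0}), ∀ b, b.card ≤ v i → Φ i b := by
  classical
  by_contra hcon
  rw [← Ultrafilter.eventually_not] at hcon
  have h1 : ∀ i : Ordinal.{0}, ∃ b : Ordinal.{0}, (¬ ∀ b, b.card ≤ v i → Φ i b) →
      b.card ≤ v i ∧ ¬ Φ i b := by
    intro i
    by_cases hi : ¬ ∀ b, b.card ≤ v i → Φ i b
    · have hi' := hi
      push Not at hi'
      obtain ⟨b, hb⟩ := hi'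
      exact ⟨b, fun _ => hb⟩
    · exact ⟨0, fun h => absurd h hi⟩
  choose b hb using h1
  obtain ⟨β, hβ, hβ'⟩ := hX.cover b (by filter_upwards [hcon] with i hi using (hb i hi).1)
  obtain ⟨i, h2, h3, h4⟩ := ((h β hβ).and (hβ'.and hcon)).exists
  exact (hb i h4).2 (h2 _ h3)

theorem Ctx.thr (hX : Ctx δ U C v ρ K) (B : Ordinal.{0} → Ordinal.{0} → Set Ordinal.{0})
    (hB : ∀ β < K, ∀ i, ∀ z ∈ B β i, z < gg C v β i)
    (hcoh : ∀ β < K, ∀ γ < β, ∀ᶠ i in (U : Filter Ordinal.{0}),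
      ∀ z, (z ∈ B γ i ↔ z ∈ B β i ∧ z < gg C v γ i)) :
    ∃ g : Ordinal.{0} → Set Ordinal.{0}, ∀ β < K, ∀ᶠ i in (U : Filter Ordinal.{0}),
      ∀ z < gg C v β i, (z ∈ g i ↔ z ∈ B β i) := by
  classical
  have hρ := hX.hρ
  set A : Set Ordinal.{0} := {η | ∃ β < K, ∃ f : Ordinal.{0} → Ordinal.{0}, ρ f = η ∧
    ∀ᶠ i in (U : Filter Ordinal.{0}), f i ∈ B β i} with hA
  have hAK : A ⊆ Iio K := by
    rintro η ⟨β, hβ, f, rfl, hf⟩
    refine hX.hcard f ?_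
    filter_upwards [hf] with i hi
    have h1 := hB β hβ i _ hi
    refine (Ordinal.card_le_card h1.le).trans ?_
    exact card_rk_le hX.hC (v i) (hX.hvinf i) hβ
  have hR : ∀ β < K, ∀ η, (η ∈ A ∧ η < ρ (fun i => gg C v β i)) ↔
      ∃ f : Ordinal.{0} → Ordinal.{0}, ρ f = η ∧
        ∀ᶠ i in (U : Filter Ordinal.{0}), f i ∈ B β i := by
    intro β hβ η
    constructor
    · rintro ⟨⟨β', hβ', f, rfl, hf⟩, hlt⟩
      refine ⟨f, rfl, ?_⟩
      rw [hρ] at hlt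
      rcases lt_trichotomy β β' with h | h | h
      · filter_upwards [hf, hlt, hcoh β' hβ' β h] with i h1 h2 h3
        exact (h3 _).mpr ⟨h1, h2⟩
      · subst h; exact hf
      · filter_upwards [hf, hcoh β hβ β' h] with i h1 h3
        exact ((h3 _).mp h1).1
    · rintro ⟨f, rfl, hf⟩
      refine ⟨⟨β, hβ, f, rfl, hf⟩, ?_⟩
      rw [hρ]
      filter_upwards [hf] with i h1
      exact hB β hβ i _ h1
  have hseg : ∀ α < K, ∃ g : Ordinal.{0} → Set Ordinal.{0}, ∀ η : Ordinal.{0},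
            η ∈ A ∩ Set.Iio α ↔ ∃ f : Ordinal.{0} → Ordinal.{0},
              ρ f = η ∧ ∀ᶠ i in (U : Filter Ordinal.{0}), f i ∈ g i := by
    intro α hα
    have h1 := hX.le_rho α hα
    obtain ⟨hα', hhα⟩ : ∃ h' : Ordinal.{0} → Ordinal.{0}, ρ h' = α := by
      rcases h1.lt_or_eq with h | h
      · exact hX.hρ' _ α h
      · exact ⟨_, h.symm⟩
    refine ⟨fun i => B α i ∩ Iio (hα' i), ?_⟩
    intro η
    constructor
    · rintro ⟨h2, h3⟩
      obtain ⟨f, rfl, hf⟩ := (hR α hα η).mp ⟨h2, lt_of_lt_of_le h3 h1⟩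
      refine ⟨f, rfl, ?_⟩
      have h4 : ρ f < ρ hα' := by rw [hhα]; exact h3
      rw [hρ] at h4
      filter_upwards [hf, h4] with i a b using ⟨a, b⟩
    · rintro ⟨f, rfl, hf⟩
      refine ⟨((hR α hα (ρ f)).mpr ⟨f, rfl, ?_⟩).1, ?_⟩
      · filter_upwards [hf] with i a using a.1
      · show ρ f < α
        rw [← hhα, hρ]
        filter_upwards [hf] with i a using a.2
  have hrep : ∃ g : Ordinal.{0} → Set Ordinal.{0}, ∀ η : Ordinal.{0},
            η ∈ A ↔ ∃ f : Ordinal.{0} → Ordinal.{0},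
              ρ f = η ∧ ∀ᶠ i in (U : Filter Ordinal.{0}), f i ∈ g i := by
    by_cases hun : ∀ β < K, ∃ γ ∈ A, β < γ
    · by_contra hcon
      exact hX.hno ⟨A, hAK, hun, hcon, hseg⟩
    · push Not at hun
      obtain ⟨β, hβ, hβA⟩ := hun
      obtain ⟨g, hg⟩ := hseg (succ β) (hX.hK β hβ)
      refine ⟨g, ?_⟩
      intro η
      rw [← hg η]
      constructor
      · intro h
        exact ⟨h, Order.lt_succ_of_le (hβA η h)⟩
      · exact fun h => h.1
  obtain ⟨g, hg⟩ := hrep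
  refine ⟨g, ?_⟩
  intro β hβ
  by_contra hcon
  rw [← Ultrafilter.eventually_not] at hcon
  have h2 : ∃ f : Ordinal.{0} → Ordinal.{0}, ∀ᶠ i in (U : Filter Ordinal.{0}),
      f i < gg C v β i ∧ ¬ (f i ∈ g i ↔ f i ∈ B β i) := by
    refine ⟨fun i => if h : ∃ z, z < gg C v β i ∧
      ¬ (z ∈ g i ↔ z ∈ B β i) then h.choose else 0, ?_⟩
    filter_upwards [hcon] with i hi
    have hex : ∃ z, z < gg C v β i ∧ ¬ (z ∈ g i ↔ z ∈ B β i) := by
      by_contra hc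
      apply hi
      intro z hz
      by_contra hc'
      exact hc ⟨z, hz, hc'⟩
    rw [dif_pos hex]
    exact hex.choose_spec
  obtain ⟨f, hf⟩ := h2
  have hlt : ρ f < ρ (fun i => gg C v β i) := by
    rw [hρ]
    filter_upwards [hf] with i hi using hi.1
  rcases Ultrafilter.em (U : Ultrafilter Ordinal.{0}) (fun i => f i ∈ g i) with h | h
  · have hA' : ρ f ∈ A := (hg _).mpr ⟨f, rfl, h⟩
    obtain ⟨f', hf'1, hf'2⟩ := (hR β hβ (ρ f)).mp ⟨hA', hlt⟩
    have heq := rho_eq hρ hf'1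
    have : ∀ᶠ i in (U : Filter Ordinal.{0}), False := by
      filter_upwards [hf, h, heq, hf'2] with i a b c d
      rw [c] at d
      exact a.2 ⟨fun _ => d, fun _ => b⟩
    exact this.exists.elim (fun _ h => h)
  · have hB : ∀ᶠ i in (U : Filter Ordinal.{0}), f i ∈ B β i := by
      filter_upwards [hf, h] with i a b
      by_contra hcc
      exact a.2 ⟨fun hx => absurd hx b, fun hx => absurd hx hcc⟩
    have hA' : ρ f ∈ A := ((hR β hβ (ρ f)).mpr ⟨f, rfl, hB⟩).1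
    obtain ⟨f', hf'1, hf'2⟩ := (hg _).mp hA'
    have heq := rho_eq hρ hf'1
    have : ∀ᶠ i in (U : Filter Ordinal.{0}), False := by
      filter_upwards [h, heq, hf'2] with i b c d
      rw [c] at d
      exact b d
    exact this.exists.elim (fun _ h => h)

end TH732.FR
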